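import Mathlib
import Pool.Agent.X332.GS.Hyp
import Pool.Agent.X332.GS.Cls
import Pool.Agent.Y190.CI.Tf

/-!
# Hyperbolicity, subvarieties of general type, rational points, sequences and group curves

Let `X = {F = 0}` be a complex projective variety (any closed subset of `P^n`). We consider two
conditions which lie between the property that all subvarieties of `X` of positive dimension are of
general type, or that `X` has only finitely many points over each finitely generated field, and the
property that there are no nonconstant morphisms from the multiplicative group (or from abelian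
varieties) to `X`:

* all sequences of points of `X` given by linear recurrences over towers of fields of sequences are
  eventually periodic (`TowersPeriodic F ∅`);
* there is no nonconstant image of a group curve in `X` (`GrpImage`).

(1) For all `X`: `AllGeneralType F` implies the first condition, and so does the finiteness of the
points over finitely generated fields; the first condition implies the second, and this implies that
there are no nonconstant morphisms from the multiplicative group to `X`.

(2) If `X` is a closed subset of a complete intersection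
`w j ^ d j = H (a j 1) * ... * H (a j (d j))`, `j < c`, of linear degree (`CompInt n a`), and
`n ≤ c + 1`, then `X` is hyperbolic if and only if one (or each) of these conditions holds; if
`n ≤ c` then all of them hold.

(3) The same equivalences hold if the `F e` are nested sums of high powers of linear forms, or all of
them nested sums of high powers of monomials.
-/

set_option autoImplicit false

namespace Pool.Agent.Results.MP_c6ff8d_ag.DynamicalHyperbolicity

open MvPolynomial Pool.Agent.W602.GT Pool.Agent.X332.GS
open Pool.Agent.Y190.CI (Data CompInt special_ci hyp_seven hyp_low)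
open Pool.Agent.Y190.PH (Brody)
open Pool.Agent.TH710.ND (HighTowers lang_iff)

theorem result :
    (∀ (n : ℕ) (ι : Type) (F : ι → MvPolynomial (Fin (n + 1)) ℂ), (∀ e, IsForm (F e)) →
      (AllGeneralType F → TowersPeriodic F ∅) ∧ (FieldsFinite F ∅ → TowersPeriodic F ∅) ∧
      (TowersPeriodic F ∅ → ∀ y, ¬ GrpImage F y) ∧
      ((∀ y, ¬ GrpImage F y) → ∀ P, ¬ GmCurve F P)) ∧
    (∀ (n c δ : ℕ) (d : Fin c → ℕ) (a : (j : Fin c) → Fin (d j) → ℂ), Data n c δ d a →
      ∀ (ι : Type) (F : ι → MvPolynomial (Fin (c + n + 1)) ℂ), (∀ e, IsForm (F e)) →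
      Cone F ⊆ CompInt n a →
      (n ≤ c + 1 → [Brody F, AllGeneralType F, TowersPeriodic F ∅, ∀ y, ¬ GrpImage F y,
        ∀ P, ¬ GmCurve F P].TFAE) ∧ (n ≤ c → TowersPeriodic F ∅ ∧ ∀ y, ¬ GrpImage F y)) ∧
    ∀ (n s N h : ℕ) (ι : Type) (F : ι → MvPolynomial (Fin (n + 1)) ℂ), HighTowers s N h F →
      (n + 1) * ((h + 1) * (2 * s + 1) ^ 5) ≤ N →
      [∀ f, ¬ Pool.Agent.H159R3.GGL.EntireCurve F f, AllGeneralType F, TowersPeriodic F ∅,
        ∀ y, ¬ GrpImage F y, ∀ P, ¬ GmCurve F P].TFAE := by
  refine ⟨fun n ι F hF => ⟨fun h => tow_of_all hF h, tow_of_finite hF, no_grp hF, no_gm_of_grp⟩,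
    fun n c δ d a h ι F hF hV => ⟨fun hnc => ?_, fun hnc => ?_⟩, fun n s N h ι F hF hN => ?_⟩
  · have h1 := hyp_seven hnc h.num h.inj hF hV
    have h2 : Brody F ↔ AllGeneralType F := h1.out 0 2
    have h3 : AllGeneralType F ↔ ∀ P, ¬ GmCurve F P := h1.out 2 5
    tfae_have 1 ↔ 2 := h2
    tfae_have 2 → 3 := fun h => tow_of_all hF h
    tfae_have 3 → 4 := no_grp hF
    tfae_have 4 → 5 := no_gm_of_grp
    tfae_have 5 → 2 := h3.2
    tfae_finish
  · have h1 := (hyp_low hnc h.num h.inj hF hV).2.2.1
    have h2 := tow_of_all hF h1
    exact ⟨h2, no_grp hF h2⟩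
  · have hF' : ∀ e, IsForm (F e) := fun e => hF.form e
    have h1 := lang_iff hF hN
    tfae_have 1 ↔ 2 := h1.out 0 1
    tfae_have 2 → 3 := fun h => tow_of_all hF' h
    tfae_have 3 → 4 := no_grp hF'
    tfae_have 4 → 5 := no_gm_of_grp
    tfae_have 5 → 2 := (h1.out 1 2).2
    tfae_finish

end Pool.Agent.Results.MP_c6ff8d_ag.DynamicalHyperbolicity
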