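import Pool.Agent.X309.PQ.Gt

/-!
# Hyperbolic quotients of products are of general type

MP_c6ff8d_ag, Q1 (Lang): a projective model of a quotient of a product of curves and of a variety of
general type which is Kobayashi hyperbolic is of general type.

Let `Y` be a projective variety of dimension `d` over the complex numbers, of general type or a point, and `C i`
(`i < n`) arbitrary projective curves. The product `Z = Y × C 0 × ... × C (n - 1)` is given by its
function field `L`, generated by the function fields `M` of `Y` and `F i` of `C i` (`hsup`). Let `G`
be a finite group of birational automorphisms of `Z` which permutes the curves through `σ` (it need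
not preserve `Y`), and suppose

* `MixedPos` (`Pool/Agent/W619/Y/Cond.lean`): for some `N ≥ 2` the fixed locus of each `g ≠ 1` in `G`
  on the product of the curves is empty or of codimension at least `N`, and for each of the curves,
  with its quotient by its stabilizer, one of the following holds: `N ≥ 7` (`5` if `3` does not
  divide the order of `G`, `4` if the order is odd); the quotient is irrational or has at least `5`
  branch points (`4` if the curve is elliptic); there is an orbifold divisor `δ ≤ 1 - 1 / N` on the
  quotient such that `K + δ` has positive degree (nonnegative if the curve is elliptic); or the curve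
  is rational;
* or that `Y` is a point, `G` maps each curve to itself, and `PosCond` (`Pool/Agent/W619/X/Cond.lean`)
  holds: the same with the number of the curves moved by `g` in the place of the codimension, or a
  condition of Reid-Tai type for orbifold divisors of positive degree on the quotient curves.

For instance `G` acts freely on the product of the curves, or all fixed loci have codimension at
least `7`. 
Let `X` in `ℙ^N` be a projective variety, smooth or not, which is birational to `Z / G`
(`x` is its generic point). If there is a proper closed subset `{H = 0}` of `X` such that all
morphisms from curves of genus zero and one to `X` with image not contained in it are constant, then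
`X` is of general type: for some `m ≥ 1` there are at least `j ^ dim X` linearly independent sections
of `j m K_X` (on a resolution), for all `j ≥ 1`. If `X` is Kobayashi hyperbolic this holds with
`H = 1`. This is the part of the conjecture of Lang for `X` itself (not for its proper
subvarieties): Kobayashi hyperbolic implies general type.
-/

set_option autoImplicit false
set_option linter.overlappingInstances false

namespace Pool.Agent.Results.MP_c6ff8d_ag.MixedQuotients

open FF IntermediateField Pool.Agent.W619.Y Pool.Agent.W619.TW Pool.Agent.X309.PQ
open Pool.Agent.W602.GT (coords IsForm val)
open Pool.Agent.W619.X (PosCond)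

/-- **Hyperbolicity and general type for quotients of products.** See the description of the file:
`x` is the generic point of `X` in homogeneous coordinates, `H` a form which does not vanish on `X`,
`NoLow` says that the morphisms from curves of genus at most one to `X` with image not contained in
`{H = 0}` are constant, `KodTr` that `Y` is of general type, `KodGe` that `X` is. -/
theorem result {L : Type} [Field L]
    [Algebra ℂ L] (d n : ℕ) (hn : Algebra.trdeg ℂ L = (d + n : ℕ))
    (M : IntermediateField ℂ L) [Algebra.EssFiniteType ℂ M] (hM : Algebra.trdeg ℂ M = d)
    (hY : d = 0 ∨ KodTr ℂ M d d)
    (F : Fin n → IntermediateField ℂ L) (hF : ∀ i, IsFF ℂ (F i))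
    (hsup : M ⊔ (⨆ i, F i) = ⊤)
    (G : Subgroup (L ≃ₐ[ℂ] L)) [Finite G] (σ : G →* Equiv.Perm (Fin n))
    (hσ : ∀ (g : G) i, ∀ z ∈ F i, (g : L ≃ₐ[ℂ] L) z ∈ F (σ g i))
    (h : MixedPos G σ F ∨ (d = 0 ∧ (∀ g i, σ g i = i) ∧ PosCond G F))
    {N : ℕ} (x : Fin (N + 1) → fixedField G) (hx : x ≠ 0) (hgen : coords ℂ x = ⊤)
    (H : MvPolynomial (Fin (N + 1)) ℂ) (hH : IsForm H) (hH0 : val x H ≠ 0)
    (hno : NoLow ℂ x H) : KodGe ℂ (fixedField G) (d + n) (fun _ => False) (d + n) :=
  Pool.Agent.X309.PQ.main d n hn M hM hY F hsup G σ hσ h x hx hgen H hH hH0 hno

end Pool.Agent.Results.MP_c6ff8d_ag.MixedQuotients
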