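import Mathlib
import Pool.Agent.X333.DN.ImT

/-!
MP_c6ff8d_ag, Q1: Lang's conjecture on hyperbolicity and subvarieties of general type for the finite
images of projective varieties given by nested sums of high powers, and of their covers.

`V = {F = 0}` in `ℙⁿ` is a projective variety whose equations are nested sums of high powers of
linear forms, or nested sums of high powers of monomials. We consider the images `X = {Φ = 0}` of
the finite covers `W = {Ψ = 0}` of subvarieties of `V` under finite morphisms with fibres of at most
`r` points. No assumption is made on the singularities and the branch loci. Entire curves in `X`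
need not lift to `W`; they lift to algebroid curves.

`Mor`, `Onto`, `FibresLe`, `Entire`, `AllGeneral` (`Pool/Agent/Y221/FQ/Defs.lean`), `GmCurve`
(`Pool/Agent/W602/GT/SpGmDefs.lean`), `HighTowers` (`Pool/Agent/TH710/ND/Proj.lean`).
-/

set_option autoImplicit false

namespace Pool.Agent.Results.MP_c6ff8d_ag.NestedFiniteImages

open Pool.Agent.W602.GT Pool.Agent.Y221.FQ Pool.Agent.TH710.ND

/-- Let `V = {F = 0}`, where the forms `F_e` are nested sums with at most `h + 1` levels, at most
`s` summands at each, and exponents at least `4 (n + 1) (h + 1) 100 ^ s (r + 1) ^ 7`.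

(1) If `G : V → X = {Φ = 0}` is a surjective morphism with fibres of at most `r` points, then the
following are equivalent: `X` contains no nonconstant entire curve; all closed subvarieties of
positive dimension of `X` are of general type; there is no nonconstant morphism from the
multiplicative group to `X`; there is no nonconstant morphism from the multiplicative group to `V`.

(2) If there is no nonconstant morphism from the multiplicative group to `V`, and `W = {Ψ = 0}` is
a projective variety with a morphism `B : W → V` and a surjective morphism `G : W → X = {Φ = 0}`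
with fibres of at most `r` points, then `X` contains no nonconstant entire curve, and all closed
subvarieties of positive dimension of `X` are of general type. -/
theorem result {n M : ℕ} {ι μ : Type} {F : ι → MvPolynomial (Fin (n + 1)) ℂ}
    {Φ : μ → MvPolynomial (Fin (M + 1)) ℂ} {s N h r : ℕ} (hF : HighTowers s N h F)
    (hN : (n + 1) * ((h + 1) * (4 * 10 ^ (2 * s) * (r + 1) ^ 7)) ≤ N)
    (hΦ : ∀ e, IsForm (Φ e)) :
    (∀ G : Fin (M + 1) → MvPolynomial (Fin (n + 1)) ℂ, Mor F Φ G → Onto F Φ G → FibresLe F G r →
      [∀ f, ¬ Entire Φ f, AllGeneral Φ, ∀ P, ¬ GmCurve Φ P, ∀ P, ¬ GmCurve F P].TFAE) ∧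
    ((∀ P, ¬ GmCurve F P) → ∀ (m : ℕ) (κ : Type) (Ψ : κ → MvPolynomial (Fin (m + 1)) ℂ)
      (B : Fin (n + 1) → MvPolynomial (Fin (m + 1)) ℂ)
      (G : Fin (M + 1) → MvPolynomial (Fin (m + 1)) ℂ), (∀ e, IsForm (Ψ e)) → Mor Ψ F B →
      Mor Ψ Φ G → Onto Ψ Φ G → FibresLe Ψ G r → (∀ f, ¬ Entire Φ f) ∧ AllGeneral Φ) :=
  ⟨fun _ hG hon hfib => Pool.Agent.X333.DN.hyp_im' hΦ hG hon hfib hF hN,
    fun hGm _ _ _ _ _ hΨ hB hG hon hfib =>
      Pool.Agent.X333.DN.hyp_cover' hΨ hB hG hon hfib hF hN hGm⟩

end Pool.Agent.Results.MP_c6ff8d_ag.NestedFiniteImages
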