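import Pool.Agent.X316.ZE.Gt

/-!
# Subvarieties of general type and entire curves built from elliptic functions and the zeta function

A family `u` of meromorphic functions on the plane is called jointly universal if the translates of
every finite subfamily approximate all tuples of zero-free entire functions uniformly on some disc.
By Voronin's theorem the Riemann zeta function alone is such a family. For a lattice let `B` be the
ring of the polynomials in the elliptic functions of the lattice, the functions `u j` and all their
derivatives. A curve is built from elliptic functions and `u` if for some lattice it is algebraic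
over `B`, or has homogeneous coordinates in the smallest set of meromorphic functions which contains
the quotients of elements of `B` and is closed under sums, products and meromorphic solutions of
linear systems `y' = A y` with coefficients in the set.

Let `X` and `Z` be closed subsets of the projective space such that all subvarieties of `X` of
positive dimension which are not contained in `Z` are of general type. We prove that all nonconstant
entire curves in `X` which are built from elliptic functions and a jointly universal family are
contained in `Z`. In particular, if all subvarieties of `X` of positive dimension are of general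
type, then all these curves are constant; this is Lang's conjecture for these curves. The same holds
for the holomorphic maps from complex tori of dimension one.
-/

set_option autoImplicit false

namespace Pool.Agent.Results.MP_c6ff8d_ag.UniversalGeneralType

open Filter MvPolynomial
open scoped LinearAlgebra.Projectivization
open Pool.Agent.TH143.EL (HolMap InV TorusMapsIn Ell)
open Pool.Agent.W602.GT (IsForm GeneralType coords val)
open Pool.Agent.Y377.IL (IteratedOver AlgebraicOver)
open Pool.Agent.X316.ZG (JointlyUniversal)
open Pool.Agent.X316.ZE (dringB)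

variable {N : ℕ}

/-- The curve `f` is built from the elliptic functions with the periods `ω₁` and `ω₂` and the
functions `u j`: with `B` the ring of the polynomials in these elliptic functions, the functions
`u j` and all their derivatives, the curve has homogeneous coordinates in the smallest set of
meromorphic functions which contains the quotients of elements of `B` and is closed under sums,
products and meromorphic solutions of linear systems over the set, or it is algebraic over `B`. -/
def BuiltFrom {ι : Type} (ω₁ ω₂ : ℂ) (u : ι → ℂ → ℂ) (f : ℂ → ℙ ℂ (Fin (N + 1) → ℂ)) : Prop :=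
  IteratedOver (dringB (Ell ω₁ ω₂) u) f ∨ AlgebraicOver (dringB (Ell ω₁ ω₂) u) f

/-- All subvarieties of positive dimension of `X = V(I)` which are not contained in `Z = V(I')` are
of general type: `F` is the function field and `y` the generic point, in homogeneous coordinates, of
the subvariety, and `w` is its dimension. -/
def SubvarietiesGeneralType (I I' : Ideal (MvPolynomial (Fin (N + 1)) ℂ)) : Prop :=
  ∀ (F : Type) [Field F] [Algebra ℂ F] (w : ℕ) (y : Fin (N + 1) → F), 1 ≤ w →
    Algebra.trdeg ℂ F = w → y ≠ 0 → coords ℂ y = ⊤ →
    (∀ G ∈ I, IsForm G → val y G = 0) → ¬ (∀ G ∈ I', IsForm G → val y G = 0) →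
    GeneralType ℂ F w

/-- The entire curve `f` is nonconstant. -/
def Nonconst (f : ℂ → ℙ ℂ (Fin (N + 1) → ℂ)) : Prop := ∃ z w, f z ≠ f w

theorem const_of_top {f : ℂ → ℙ ℂ (Fin (N + 1) → ℂ)}
    (h : ∀ z, InV (⊤ : Ideal (MvPolynomial (Fin (N + 1)) ℂ)) (f z)) : False := by
  have h2 := h 0 1 (Submodule.mem_top) ⟨0, isHomogeneous_one _ _⟩
  rw [map_one] at h2
  exact one_ne_zero h2

/-- **Lang's conjecture for the curves built from elliptic functions and universal functions.**

(1) Suppose that all subvarieties of `X = V(I)` of positive dimension which are not contained in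
`Z = V(I')` are of general type. Then all nonconstant entire curves in `X` which are built from
elliptic functions and a jointly universal family, and all nonconstant holomorphic maps from complex
tori of dimension one to `X`, have their image in `Z`.

(2) Suppose that all subvarieties of `X = V(I)` of positive dimension are of general type. Then all
entire curves in `X` which are built from elliptic functions and a jointly universal family are
constant.

(3) The Riemann zeta function is universal. -/
theorem result :
    (∀ I I' : Ideal (MvPolynomial (Fin (N + 1)) ℂ), SubvarietiesGeneralType I I' →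
      (∀ ω₁ ω₂ : ℂ, LinearIndependent ℝ ![ω₁, ω₂] → ∀ (ι : Type) (u : ι → ℂ → ℂ),
        JointlyUniversal u → ∀ f : ℂ → ℙ ℂ (Fin (N + 1) → ℂ), HolMap f → BuiltFrom ω₁ ω₂ u f →
          (∀ z, InV I (f z)) → Nonconst f → ∀ z, InV I' (f z)) ∧
      (∀ ω₁ ω₂ : ℂ, LinearIndependent ℝ ![ω₁, ω₂] → ∀ f : ℂ → ℙ ℂ (Fin (N + 1) → ℂ), HolMap f →
        (∀ z, f (z + ω₁) = f z) → (∀ z, f (z + ω₂) = f z) → (∀ z, InV I (f z)) → Nonconst f →
          ∀ z, InV I' (f z))) ∧
    (∀ I : Ideal (MvPolynomial (Fin (N + 1)) ℂ), SubvarietiesGeneralType I ⊤ →
      ∀ ω₁ ω₂ : ℂ, LinearIndependent ℝ ![ω₁, ω₂] → ∀ (ι : Type) (u : ι → ℂ → ℂ),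
        JointlyUniversal u → ∀ f : ℂ → ℙ ℂ (Fin (N + 1) → ℂ), HolMap f → BuiltFrom ω₁ ω₂ u f →
          (∀ z, InV I (f z)) → ∀ z w, f z = f w) ∧
    JointlyUniversal fun _ : Unit => riemannZeta := by
  have key : ∀ I I' : Ideal (MvPolynomial (Fin (N + 1)) ℂ), SubvarietiesGeneralType I I' →
      TorusMapsIn I I' := by
    intro I I' h
    refine Pool.Agent.X316.ZE.torus_of_allGT fun F _ _ w y hw htr hy0 hgen h1 h2 => ?_
    rw [Pool.Agent.X316.ZE.isPtP_val] at h1 h2
    exact h F w y hw htr hy0 hgen h1 h2
  have main : ∀ I I' : Ideal (MvPolynomial (Fin (N + 1)) ℂ), SubvarietiesGeneralType I I' →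
      ∀ ω₁ ω₂ : ℂ, LinearIndependent ℝ ![ω₁, ω₂] → ∀ (ι : Type) (u : ι → ℂ → ℂ),
        JointlyUniversal u → ∀ f : ℂ → ℙ ℂ (Fin (N + 1) → ℂ), HolMap f → BuiltFrom ω₁ ω₂ u f →
          (∀ z, InV I (f z)) → Nonconst f → ∀ z, InV I' (f z) :=
    fun I I' h ω₁ ω₂ hω ι u hu f hf hb hI hnc =>
      Pool.Agent.X316.ZE.built_torus (key I I' h) hf ⟨ω₁, ω₂, hω, ι, u, hu, hb⟩ hI hnc
  refine ⟨fun I I' h => ⟨main I I' h, fun ω₁ ω₂ hω f hf h1 h2 hI hnc =>
    key I I' h ω₁ ω₂ hω f hf h1 h2 hI hnc⟩, fun I h ω₁ ω₂ hω ι u hu f hf hb hI z w => ?_,
    Pool.Agent.X316.ZG.zeta_universal⟩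
  by_contra hzw
  exact const_of_top (main I ⊤ h ω₁ ω₂ hω ι u hu f hf hb hI ⟨z, w, hzw⟩)

end Pool.Agent.Results.MP_c6ff8d_ag.UniversalGeneralType
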